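import Pool.Agent.H25.MF.Targets

/-!
# EV: translation of the one-sided bounds (`MP_118735_nt`)
-/

set_option autoImplicit false

open Complex MeasureTheory Filter Topology

namespace Pool.Agent.H11.MF

open Pool.Agent.H25.MF

theorem sqrt_exp (v : ℝ) : √(Real.exp v) = Real.exp (v / 2) := by
  rw [Real.exp_half]

/-- The combination in terms of `M` and `R`. -/
theorem gL_eq (J : Finset ℝ) (c : ℝ → ℝ) (hJ : ∀ a ∈ J, 0 < a) (v : ℝ) :
    gL J c gf v = (∑ a ∈ J, c a * M (a * Real.exp v)) * Real.exp (-(v / 2)) +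
      (∑ a ∈ J, c a * (2 - R (1 / (a * Real.exp v)))) * Real.exp (-(v / 2)) := by
  unfold gL
  rw [← add_mul, ← Finset.sum_add_distrib, Finset.sum_mul]
  refine Finset.sum_congr rfl fun a ha => ?_
  have ha0 := hJ a ha
  unfold gf N
  have h1 : Real.exp (v + Real.log a) = a * Real.exp v := by
    rw [Real.exp_add, Real.exp_log ha0, mul_comm]
  have h2 : Real.exp (-((v + Real.log a) / 2)) = Real.exp (-(v / 2)) * (√a)⁻¹ := by
    have h3 : -((v + Real.log a) / 2) = -(v / 2) + -(Real.log a / 2) := by ring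
    rw [h3, Real.exp_add]
    congr 1
    rw [Real.exp_neg, ← sqrt_exp, Real.exp_log ha0]
  rw [h1, h2]
  have h4 : √a ≠ 0 := (Real.sqrt_pos.mpr ha0).ne'
  field_simp
  ring

/-- The correction tends to zero. -/
theorem corr_tendsto (hRB : T_RB) (J : Finset ℝ) (c : ℝ → ℝ) (hJ : ∀ a ∈ J, 0 < a) :
    Tendsto (fun v : ℝ => (∑ a ∈ J, c a * (2 - R (1 / (a * Real.exp v)))) *
      Real.exp (-(v / 2))) atTop (𝓝 0) := by
  obtain ⟨-, ⟨C, hC⟩, -⟩ := hRB
  have hexp : Tendsto (fun v : ℝ => Real.exp v) atTop atTop := Real.tendsto_exp_atTop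
  have h1 : ∀ a ∈ J, Tendsto (fun v : ℝ => c a * (2 - R (1 / (a * Real.exp v)))) atTop
      (𝓝 (c a * (2 - 0))) := by
    intro a ha
    have ha0 := hJ a ha
    refine Tendsto.const_mul _ (Tendsto.const_sub _ ?_)
    have h2 : Tendsto (fun v : ℝ => 1 / (a * Real.exp v)) atTop (𝓝 0) := by
      refine Tendsto.div_atTop tendsto_const_nhds ?_
      exact hexp.const_mul_atTop ha0
    have h3 : Tendsto (fun v : ℝ => C * (1 / (a * Real.exp v)) ^ 2) atTop (𝓝 0) := by
      have := (h2.pow 2).const_mul C
      simpa using this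
    refine squeeze_zero_norm (fun v => ?_) h3
    rw [Real.norm_eq_abs]
    exact (hC _ (by positivity)).2
  have h2 : Tendsto (fun v : ℝ => ∑ a ∈ J, c a * (2 - R (1 / (a * Real.exp v)))) atTop
      (𝓝 (∑ a ∈ J, c a * (2 - 0))) := tendsto_finsetSum _ h1
  have h3 : Tendsto (fun v : ℝ => Real.exp (-(v / 2))) atTop (𝓝 0) := by
    refine Real.tendsto_exp_atBot.comp ?_
    refine tendsto_neg_atTop_atBot.comp ?_
    exact tendsto_id.atTop_div_const (by norm_num)
  have h4 := h2.mul h3
  rwa [mul_zero] at h4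

theorem pf_EV (hRB : T_RB) : T_EV := by
  refine ⟨?_, ?_⟩
  · intro J c hJ k
    have hD := corr_tendsto hRB J c hJ
    have hexpm : ∀ v : ℝ, Real.exp (-(v / 2)) * Real.exp (v / 2) = 1 := by
      intro v
      rw [← Real.exp_add, neg_add_cancel, Real.exp_zero]
    constructor
    · intro h ε hε
      have h1 := Real.tendsto_exp_atTop.eventually (h (ε / 2) (by positivity))
      have h2 := hD.eventually (gt_mem_nhds (show (0 : ℝ) < ε / 2 by positivity))
      filter_upwards [h1, h2] with v h3 h4
      rw [gL_eq J c hJ v]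
      have h5 : (∑ a ∈ J, c a * M (a * Real.exp v)) * Real.exp (-(v / 2)) ≤ k + ε / 2 := by
        have h6 := mul_le_mul_of_nonneg_right h3 (Real.exp_nonneg (-(v / 2)))
        rw [sqrt_exp, mul_assoc, mul_comm (Real.exp (v / 2)), hexpm, mul_one] at h6
        exact h6
      linarith
    · intro h ε hε
      have h1 := Real.tendsto_log_atTop.eventually (h (ε / 2) (by positivity))
      have h2 := Real.tendsto_log_atTop.eventually
        (hD.eventually (lt_mem_nhds (show -(ε / 2) < (0 : ℝ) by linarith)))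
      filter_upwards [h1, h2, eventually_gt_atTop (0 : ℝ)] with x h3 h4 hx
      rw [gL_eq J c hJ] at h3
      have h5 : (∑ a ∈ J, c a * M (a * Real.exp (Real.log x))) *
          Real.exp (-(Real.log x / 2)) ≤ k + ε := by linarith
      have h6 := mul_le_mul_of_nonneg_right h5 (Real.exp_nonneg (Real.log x / 2))
      rw [mul_assoc, hexpm, mul_one, ← sqrt_exp, Real.exp_log hx] at h6
      exact h6
  · intro e k
    have hgf : ∀ v : ℝ, 0 < v → gf (-v) = √(Real.exp v) * (2 - R (Real.exp v)) := by
      intro v hv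
      unfold gf N
      have h1 : M (Real.exp (-v)) = 0 := by
        unfold M
        have h2 : ⌊Real.exp (-v)⌋₊ = 0 := by
          rw [Nat.floor_eq_zero]
          exact Real.exp_lt_one_iff.mpr (by linarith)
        rw [h2]
        simp
      have h3 : 1 / Real.exp (-v) = Real.exp v := by
        rw [Real.exp_neg, one_div, inv_inv]
      have h4 : -(-v / 2) = v / 2 := by ring
      rw [h1, h3, h4, sqrt_exp]
      ring
    constructor
    · intro h ε hε
      have h1 := Real.tendsto_exp_atTop.eventually (h ε hε)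
      filter_upwards [h1, eventually_gt_atTop (0 : ℝ)] with v h3 hv
      rw [hgf v hv]
      exact h3
    · intro h ε hε
      have h1 := Real.tendsto_log_atTop.eventually (h ε hε)
      filter_upwards [h1, eventually_gt_atTop (1 : ℝ)] with y h3 hy
      rw [hgf _ (Real.log_pos hy), Real.exp_log (by linarith)] at h3
      exact h3

end Pool.Agent.H11.MF
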